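import Pool.Agent.H.MP_f210e3_co.D

namespace Pool.Agent.Results.MP_763321_co.Stable

theorem result (α : Type) [Fintype α] (F : SimpleGraph α) (hF : F.IsAcyclic) (n : ℕ) :
    ∃ f : ℕ → ℕ, ∀ (V : Type) [Fintype V] (G : SimpleGraph V),
      (¬ ∃ a b : Fin n → V, (∀ i j, a i ≠ b j) ∧ (∀ i j, ¬ G.Adj (a i) (a j)) ∧
        (∀ i j, ¬ G.Adj (b i) (b j)) ∧ ∀ i j, (G.Adj (a i) (b j) ↔ i ≤ j)) →
      IsEmpty (F ↪g G) →
      G.chromaticNumber ≤ (f G.cliqueNum : ℕ∞) := by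
  choose N hN using fun k => Pool.Agent.H.MP_f210e3_co.nh_of_induced n k
  choose f hf using fun k => Pool.Agent.H.MP_f210e3_co.stable_forest F hF (N k) k
  exact ⟨f, fun V _ G h1 h2 => (hf _ V G (hN _ V G (fun K hK => hK.card_le_cliqueNum) h1)
    (fun K hK => hK.card_le_cliqueNum) h2).chromaticNumber_le⟩

end Pool.Agent.Results.MP_763321_co.Stable
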